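import Pool.Agent.Q276.KZ.Stm
import Pool.Agent.Q251.CD.Pow

set_option autoImplicit false

/-! Project KZ: the coefficients as convolution products of the blocks. -/

namespace Pool.Agent.Q175.KZ

open Pool.Agent.Q276.KZ Pool.Agent.Q276.CD Finset

open Classical in
/-- one block -/
noncomputable def fB (a c : ℕ) (q : ℕ → ℝ) : ArithmeticFunction ℝ :=
  ⟨fun n => if n ∈ Nat.smoothNumbers c ∧ Ob 0 a n = 0 then mf (ek 1) n * q (Ob a c n) else 0, by
    rw [if_neg]; rintro ⟨h, -⟩; exact (sm_iff.mp h).1 rfl⟩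

open Classical in
lemma fB_apply (a c : ℕ) (q : ℕ → ℝ) (n : ℕ) : fB a c q n =
    if n ∈ Nat.smoothNumbers c ∧ Ob 0 a n = 0 then mf (ek 1) n * q (Ob a c n) else 0 := rfl

open Classical in
lemma fQ_apply (b : ℕ → ℕ) (J : ℕ) (Q : ℕ → ℕ → ℝ) (n : ℕ) : fQ b J Q n =
    if n ∈ Nat.smoothNumbers (b (J + 1)) ∧ Ob 0 (b 0) n = 0 then
    mf (ek 1) n * ∏ j ∈ range (J + 1), Q j (Ob (b j) (b (j + 1)) n) else 0 := rfl

open Classical in
lemma mu0_apply (B n : ℕ) : mu0 B n = if n ∈ Nat.smoothNumbers B then ((ArithmeticFunction.moebius n : ℤ) : ℝ) else 0 :=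
  rfl

lemma Ob0_iff {a n : ℕ} (hn : n ≠ 0) : Ob 0 a n = 0 ↔ ∀ p : ℕ, p.Prime → p ∣ n → a ≤ p := by
  constructor
  · intro h p hp hd
    by_contra hc
    push Not at hc
    have := Ob_pos (a := 0) (b := a) hp hd hn ⟨Nat.zero_le _, hc⟩
    omega
  · intro h
    exact Ob_eq_zero fun p hp hd hc => by
      have := h p hp hd
      omega

/-- all prime factors in the interval -/
def In (a c n : ℕ) : Prop := n ≠ 0 ∧ ∀ p : ℕ, p.Prime → p ∣ n → a ≤ p ∧ p < c

lemma in_iff {a c n : ℕ} : n ∈ Nat.smoothNumbers c ∧ Ob 0 a n = 0 ↔ In a c n := by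
  unfold In
  rw [sm_iff]
  constructor
  · rintro ⟨⟨h1, h2⟩, h3⟩
    rw [Ob0_iff h1] at h3
    exact ⟨h1, fun p hp hd => ⟨h3 p hp hd, h2 p hp hd⟩⟩
  · rintro ⟨h1, h2⟩
    refine ⟨⟨h1, fun p hp hd => (h2 p hp hd).2⟩, ?_⟩
    rw [Ob0_iff h1]
    exact fun p hp hd => (h2 p hp hd).1

lemma fB_in {a c n : ℕ} {q : ℕ → ℝ} (h : In a c n) : fB a c q n = mf (ek 1) n * q (Ob a c n) := by
  rw [fB_apply, if_pos (in_iff.mpr h)]

lemma fB_out {a c n : ℕ} {q : ℕ → ℝ} (h : ¬ In a c n) : fB a c q n = 0 := by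
  rw [fB_apply, if_neg (fun hc => h (in_iff.mp hc))]

lemma fQ_in {b : ℕ → ℕ} {J : ℕ} {Q : ℕ → ℕ → ℝ} {n : ℕ} (h : In (b 0) (b (J + 1)) n) :
    fQ b J Q n = mf (ek 1) n * ∏ j ∈ range (J + 1), Q j (Ob (b j) (b (j + 1)) n) := by
  rw [fQ_apply, if_pos (in_iff.mpr h)]

lemma fQ_out {b : ℕ → ℕ} {J : ℕ} {Q : ℕ → ℕ → ℝ} {n : ℕ} (h : ¬ In (b 0) (b (J + 1)) n) :
    fQ b J Q n = 0 := by
  rw [fQ_apply, if_neg (fun hc => h (in_iff.mp hc))]

lemma prt_ne (u v n : ℕ) : prt u v n ≠ 0 := by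
  unfold prt
  refine prod_ne_zero_iff.mpr fun p hp => ?_
  rw [mem_filter, Nat.mem_primeFactors] at hp
  exact pow_ne_zero _ hp.1.1.ne_zero

lemma prt_fact (u v n q : ℕ) : (prt u v n).factorization q = if u ≤ q ∧ q < v then n.factorization q else 0 := by
  unfold prt
  rw [Nat.factorization_prod (fun p hp => by
    rw [mem_filter, Nat.mem_primeFactors] at hp
    exact pow_ne_zero _ hp.1.1.ne_zero), Finsupp.finsetSum_apply]
  have h1 : ∀ p ∈ n.primeFactors.filter (fun p => u ≤ p ∧ p < v),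
      (p ^ n.factorization p).factorization q = if p = q then n.factorization q else 0 := by
    intro p hp
    rw [mem_filter, Nat.mem_primeFactors] at hp
    rw [hp.1.1.factorization_pow, Finsupp.single_apply]
    split_ifs with h
    · rw [h]
    · rfl
  rw [sum_congr rfl h1, sum_ite_eq']
  by_cases hq : u ≤ q ∧ q < v
  · rw [if_pos hq]
    split_ifs with h
    · rfl
    · rw [mem_filter] at h
      by_contra hc
      exact h ⟨by rw [← Nat.support_factorization, Finsupp.mem_support_iff]; exact Ne.symm hc, hq⟩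
  · rw [if_neg hq, if_neg]
    rw [mem_filter]
    exact fun h => hq h.2

lemma fact_pos_iff {n p : ℕ} (hp : p.Prime) (hn : n ≠ 0) : p ∣ n ↔ n.factorization p ≠ 0 := by
  constructor
  · intro h
    exact (hp.factorization_pos_of_dvd hn h).ne'
  · intro h
    exact Nat.dvd_of_factorization_pos h

lemma prt_in (u v n : ℕ) : In u v (prt u v n) := by
  refine ⟨prt_ne u v n, fun p hp hd => ?_⟩
  rw [fact_pos_iff hp (prt_ne u v n), prt_fact] at hd
  by_contra hc
  rw [if_neg hc] at hd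
  exact hd rfl

/-- divisors of the part -/
lemma dvd_prt_iff {u v n d : ℕ} (hn : n ≠ 0) : d ∣ prt u v n ↔ d ∣ n ∧ In u v d := by
  constructor
  · intro h
    have hd : d ≠ 0 := fun hc => prt_ne u v n (by rw [hc] at h; exact Nat.eq_zero_of_zero_dvd h)
    have h2 := (Nat.factorization_le_iff_dvd hd (prt_ne u v n)).mpr h
    refine ⟨?_, hd, fun p hp hpd => (prt_in u v n).2 p hp (hpd.trans h)⟩
    rw [← Nat.factorization_le_iff_dvd hd hn]
    intro p
    refine (h2 p).trans ?_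
    rw [prt_fact]
    split_ifs
    · exact le_rfl
    · exact Nat.zero_le _
  · rintro ⟨h1, h2⟩
    rw [← Nat.factorization_le_iff_dvd h2.1 (prt_ne u v n)]
    intro p
    rw [prt_fact]
    have h3 := (Nat.factorization_le_iff_dvd h2.1 hn).mpr h1 p
    split_ifs with hq
    · exact h3
    · by_cases hp : p.Prime
      · by_contra hc
        have : d.factorization p ≠ 0 := by omega
        rw [← fact_pos_iff hp h2.1] at this
        exact hq (h2.2 p hp this)
      · rw [Nat.factorization_eq_zero_of_not_prime _ hp]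

lemma zt_mul (F : ArithmeticFunction ℝ) (n : ℕ) : (F * zt) n = ∑ d ∈ n.divisors, F d := by
  unfold zt
  rw [ArithmeticFunction.coe_mul_zeta_apply]

/-- convolutions with one of functions of coprime supports -/
lemma conv_zt {F G : ArithmeticFunction ℝ} (h : ∀ d e, F d ≠ 0 → G e ≠ 0 → Nat.Coprime d e) {n : ℕ} (hn : n ≠ 0) :
    (F * G * zt) n = (F * zt) n * (G * zt) n := by
  rw [zt_mul, zt_mul, zt_mul, sum_mul_sum, ← sum_product']
  have h1 : ∀ k ∈ n.divisors, (F * G) k = ∑ x ∈ k.divisorsAntidiagonal, F x.1 * G x.2 := fun k _ => by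
    rw [ArithmeticFunction.mul_apply]
  rw [sum_congr rfl h1, sum_sigma']
  have h2 : ∑ x ∈ n.divisors ×ˢ n.divisors, F x.1 * G x.2 =
      ∑ x ∈ (n.divisors ×ˢ n.divisors).filter (fun x => x.1 * x.2 ∣ n), F x.1 * G x.2 := by
    rw [sum_filter]
    refine sum_congr rfl fun x hx => ?_
    split_ifs with hd
    · rfl
    · by_contra hc
      apply hd
      rw [mem_product, Nat.mem_divisors, Nat.mem_divisors] at hx
      exact (h x.1 x.2 (left_ne_zero_of_mul hc) (right_ne_zero_of_mul hc)).mul_dvd_of_dvd_of_dvd hx.1.1 hx.2.1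
  rw [h2]
  refine sum_bij' (fun x _ => x.2) (fun x _ => ⟨x.1 * x.2, x⟩) ?_ ?_ ?_ ?_ ?_
  · rintro ⟨k, x⟩ hx
    rw [mem_sigma, Nat.mem_divisors, Nat.mem_divisorsAntidiagonal] at hx
    simp only at hx ⊢
    rw [mem_filter, mem_product, Nat.mem_divisors, Nat.mem_divisors]
    rw [← hx.2.1] at hx
    exact ⟨⟨⟨(dvd_mul_right _ _).trans hx.1.1, hn⟩, (dvd_mul_left _ _).trans hx.1.1, hn⟩, hx.1.1⟩
  · rintro x hx
    rw [mem_filter, mem_product, Nat.mem_divisors, Nat.mem_divisors] at hx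
    rw [mem_sigma, Nat.mem_divisors, Nat.mem_divisorsAntidiagonal]
    exact ⟨⟨hx.2, hn⟩, rfl, fun hc => hn (Nat.eq_zero_of_zero_dvd (hc ▸ hx.2))⟩
  · rintro ⟨k, x⟩ hx
    rw [mem_sigma, Nat.mem_divisors, Nat.mem_divisorsAntidiagonal] at hx
    simp only at hx ⊢
    rw [hx.2.1]
  · intro x _
    rfl
  · rintro ⟨k, x⟩ _
    rfl

lemma In.coprime {a c a' c' m n : ℕ} (h1 : In a c m) (h2 : In a' c' n) (h : c ≤ a') : Nat.Coprime m n := by
  rw [Nat.Coprime, Nat.eq_one_iff_not_exists_prime_dvd]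
  intro p hp hd
  have e1 := h1.2 p hp (hd.trans (Nat.gcd_dvd_left m n))
  have e2 := h2.2 p hp (hd.trans (Nat.gcd_dvd_right m n))
  omega

lemma In.mono {a c a' c' m : ℕ} (h1 : In a c m) (h : a' ≤ a) (h' : c ≤ c') : In a' c' m :=
  ⟨h1.1, fun p hp hd => ⟨h.trans (h1.2 p hp hd).1, (h1.2 p hp hd).2.trans_le h'⟩⟩

lemma In.mul {a c m n : ℕ} (h1 : In a c m) (h2 : In a c n) : In a c (m * n) := by
  refine ⟨mul_ne_zero h1.1 h2.1, fun p hp hd => ?_⟩
  rcases (Nat.Prime.dvd_mul hp).mp hd with h | h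
  · exact h1.2 p hp h
  · exact h2.2 p hp h

lemma In.dvd {a c m n : ℕ} (h1 : In a c n) (h2 : m ∣ n) : In a c m :=
  ⟨fun hc => h1.1 (by rw [hc] at h2; exact Nat.eq_zero_of_zero_dvd h2), fun p hp hd => h1.2 p hp (hd.trans h2)⟩

lemma Ob_In_zero {a c u v n : ℕ} (h : In a c n) (hh : v ≤ a ∨ c ≤ u) : Ob u v n = 0 := by
  refine Ob_eq_zero fun p hp hd hc => ?_
  have := h.2 p hp hd
  omega

/-- the splitting at `w` -/
lemma split_unique {a w c d e n : ℕ} (h1 : In a w d) (h2 : In w c e) (h : d * e = n) :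
    d = prt a w n ∧ e = prt w c n := by
  have key : ∀ q, q.Prime → n.factorization q = d.factorization q + e.factorization q := by
    intro q _
    rw [← h, Nat.factorization_mul h1.1 h2.1, Finsupp.add_apply]
  have hd : ∀ q, q.Prime → ¬ (a ≤ q ∧ q < w) → d.factorization q = 0 := by
    intro q hq hc
    by_contra h0
    exact hc (h1.2 q hq ((fact_pos_iff hq h1.1).mpr h0))
  have he : ∀ q, q.Prime → ¬ (w ≤ q ∧ q < c) → e.factorization q = 0 := by
    intro q hq hc
    by_contra h0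
    exact hc (h2.2 q hq ((fact_pos_iff hq h2.1).mpr h0))
  constructor
  · refine Nat.eq_of_factorization_eq h1.1 (prt_ne _ _ _) fun q => ?_
    rw [prt_fact]
    by_cases hq : q.Prime
    · split_ifs with hc
      · rw [key q hq, he q hq (by omega), add_zero]
      · exact hd q hq hc
    · rw [Nat.factorization_eq_zero_of_not_prime _ hq, Nat.factorization_eq_zero_of_not_prime _ hq]
      split_ifs <;> rfl
  · refine Nat.eq_of_factorization_eq h2.1 (prt_ne _ _ _) fun q => ?_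
    rw [prt_fact]
    by_cases hq : q.Prime
    · split_ifs with hc
      · rw [key q hq, hd q hq (by omega), zero_add]
      · exact he q hq hc
    · rw [Nat.factorization_eq_zero_of_not_prime _ hq, Nat.factorization_eq_zero_of_not_prime _ hq]
      split_ifs <;> rfl

lemma prt_mul_prt {a w c n : ℕ} (haw : a ≤ w) (hwc : w ≤ c) (h : In a c n) : prt a w n * prt w c n = n := by
  refine Nat.eq_of_factorization_eq (mul_ne_zero (prt_ne _ _ _) (prt_ne _ _ _)) h.1 fun q => ?_
  rw [Nat.factorization_mul (prt_ne _ _ _) (prt_ne _ _ _), Finsupp.add_apply, prt_fact, prt_fact]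
  by_cases hq : q.Prime
  · by_cases h1 : a ≤ q ∧ q < w
    · rw [if_pos h1, if_neg (by omega), add_zero]
    · rw [if_neg h1, zero_add]
      split_ifs with h2
      · rfl
      · by_contra hc
        have := h.2 q hq ((fact_pos_iff hq h.1).mpr (Ne.symm hc))
        omega
  · rw [Nat.factorization_eq_zero_of_not_prime _ hq]
    split_ifs <;> rfl

/-- convolution of functions supported on adjacent intervals -/
lemma conv_apply {F G : ArithmeticFunction ℝ} {a w c : ℕ} (haw : a ≤ w) (hwc : w ≤ c)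
    (hF : ∀ d, F d ≠ 0 → In a w d) (hG : ∀ e, G e ≠ 0 → In w c e) {n : ℕ} (h : In a c n) :
    (F * G) n = F (prt a w n) * G (prt w c n) := by
  rw [ArithmeticFunction.mul_apply, sum_eq_single (prt a w n, prt w c n)]
  · rintro ⟨d, e⟩ hx hne
    rw [Nat.mem_divisorsAntidiagonal] at hx
    by_contra hc
    have := split_unique (hF d (left_ne_zero_of_mul hc)) (hG e (right_ne_zero_of_mul hc)) hx.1
    exact hne (by rw [this.1, this.2])
  · intro hc
    exact absurd (Nat.mem_divisorsAntidiagonal.mpr ⟨prt_mul_prt haw hwc h, h.1⟩) hc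

lemma conv_out {F G : ArithmeticFunction ℝ} {a w c : ℕ} (haw : a ≤ w) (hwc : w ≤ c)
    (hF : ∀ d, F d ≠ 0 → In a w d) (hG : ∀ e, G e ≠ 0 → In w c e) {n : ℕ} (h : ¬ In a c n) :
    (F * G) n = 0 := by
  rw [ArithmeticFunction.mul_apply]
  refine sum_eq_zero fun x hx => ?_
  rw [Nat.mem_divisorsAntidiagonal] at hx
  by_contra hc
  apply h
  rw [← hx.1]
  exact ((hF _ (left_ne_zero_of_mul hc)).mono le_rfl hwc).mul ((hG _ (right_ne_zero_of_mul hc)).mono haw le_rfl)

lemma b_mono {b : ℕ → ℕ} {J : ℕ} (hb : ∀ j ≤ J, b j ≤ b (j + 1)) : ∀ i j, i ≤ j → j ≤ J + 1 → b i ≤ b j := by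
  intro i j hij
  induction j, hij using Nat.le_induction with
  | base => intro _; exact le_rfl
  | succ j _ ih =>
    intro hj
    exact (ih (by omega)).trans (hb j (by omega))

/-- the last block splits off -/
lemma fQ_succ {b : ℕ → ℕ} {J : ℕ} (Q : ℕ → ℕ → ℝ) (hb : ∀ j ≤ J + 1, b j ≤ b (j + 1)) :
    fQ b (J + 1) Q = fQ b J Q * fB (b (J + 1)) (b (J + 2)) (Q (J + 1)) := by
  have h1 : b 0 ≤ b (J + 1) := b_mono hb 0 (J + 1) (Nat.zero_le _) (by omega)
  have h2 : b (J + 1) ≤ b (J + 2) := hb (J + 1) le_rfl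
  have hF : ∀ d, fQ b J Q d ≠ 0 → In (b 0) (b (J + 1)) d := by
    intro d hd
    by_contra hc
    exact hd (fQ_out hc)
  have hG : ∀ d, fB (b (J + 1)) (b (J + 2)) (Q (J + 1)) d ≠ 0 → In (b (J + 1)) (b (J + 2)) d := by
    intro d hd
    by_contra hc
    exact hd (fB_out hc)
  ext n
  by_cases hn : In (b 0) (b (J + 2)) n
  · rw [conv_apply h1 h2 hF hG hn, fQ_in hn, fQ_in (prt_in _ _ _), fB_in (prt_in _ _ _), prod_range_succ]
    have e1 := prt_mul_prt h1 h2 hn
    have i1 := prt_in (b 0) (b (J + 1)) n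
    have i2 := prt_in (b (J + 1)) (b (J + 2)) n
    have e2 : mf (ek 1) n = mf (ek 1) (prt (b 0) (b (J + 1)) n) * mf (ek 1) (prt (b (J + 1)) (b (J + 2)) n) := by
      rw [← mf_mul _ (i1.coprime i2 le_rfl), e1]
    have e3 : ∀ u v, Ob u v n = Ob u v (prt (b 0) (b (J + 1)) n) + Ob u v (prt (b (J + 1)) (b (J + 2)) n) := by
      intro u v
      rw [← Ob_mul u v i1.1 i2.1, e1]
    have e4 : ∏ j ∈ range (J + 1), Q j (Ob (b j) (b (j + 1)) n) =
        ∏ j ∈ range (J + 1), Q j (Ob (b j) (b (j + 1)) (prt (b 0) (b (J + 1)) n)) := by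
      refine prod_congr rfl fun j hj => ?_
      rw [mem_range] at hj
      rw [e3, Ob_In_zero i2 (Or.inl (b_mono hb (j + 1) (J + 1) (by omega) (by omega))), add_zero]
    rw [e2, e4, e3, Ob_In_zero i1 (Or.inr le_rfl), zero_add]
    ring
  · rw [conv_out h1 h2 hF hG hn, fQ_out hn]

lemma fQ_zero (b : ℕ → ℕ) (Q : ℕ → ℕ → ℝ) : fQ b 0 Q = fB (b 0) (b 1) (Q 0) := by
  ext n
  by_cases hn : In (b 0) (b 1) n
  · rw [fQ_in hn, fB_in hn]
    simp
  · rw [fQ_out hn, fB_out hn]

lemma fB_zt {a c : ℕ} {q : ℕ → ℝ} {n : ℕ} (hn : n ≠ 0) :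
    (fB a c q * zt) n = ∑ d ∈ (prt a c n).divisors, mf (ek 1) d * q (Ob a c d) := by
  rw [zt_mul]
  have h1 : (prt a c n).divisors ⊆ n.divisors := by
    intro d hd
    rw [Nat.mem_divisors] at hd ⊢
    exact ⟨((dvd_prt_iff hn).mp hd.1).1, hn⟩
  rw [← sum_subset h1]
  · refine sum_congr rfl fun d hd => ?_
    rw [Nat.mem_divisors] at hd
    rw [fB_in ((dvd_prt_iff hn).mp hd.1).2]
  · intro d hd hd2
    rw [Nat.mem_divisors] at hd
    refine fB_out fun hc => hd2 ?_
    rw [Nat.mem_divisors]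
    exact ⟨(dvd_prt_iff hn).mpr ⟨hd.1, hc⟩, prt_ne _ _ _⟩

theorem t_FAC : P_FAC := by
  intro b J Q
  induction J with
  | zero =>
    intro _ n hn
    rw [fQ_zero, fB_zt hn]
    simp
  | succ J ih =>
    intro hb n hn
    rw [fQ_succ Q hb, conv_zt _ hn, ih (fun j hj => hb j (by omega)) n hn, fB_zt hn,
      prod_range_succ (fun j => ∑ d ∈ (prt (b j) (b (j + 1)) n).divisors,
        mf (ek 1) d * Q j (Ob (b j) (b (j + 1)) d)) (J + 1)]
    intro d e hd he
    have i1 : In (b 0) (b (J + 1)) d := by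
      by_contra hc
      exact hd (fQ_out hc)
    have i2 : In (b (J + 1)) (b (J + 2)) e := by
      by_contra hc
      exact he (fB_out hc)
    exact i1.coprime i2 le_rfl

lemma mu0_in {B d : ℕ} (h : mu0 B d ≠ 0) : In 0 B d ∧ Squarefree d := by
  classical
  rw [mu0_apply] at h
  split_ifs at h with hs
  · rw [sm_iff] at hs
    refine ⟨⟨hs.1, fun p hp hd => ⟨Nat.zero_le _, hs.2 p hp hd⟩⟩, ?_⟩
    by_contra hc
    rw [ArithmeticFunction.moebius_eq_zero_of_not_squarefree hc] at h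
    exact h (by simp)
  · exact absurd rfl h

theorem t_FACM : P_FACM := by
  classical
  intro b J Q hb n hn
  rw [conv_zt _ hn]
  · have h1 : (mu0 (b 0) * zt) n = if Ob 0 (b 0) n = 0 then 1 else 0 := by
      rw [zt_mul]
      have h2 : (prt 0 (b 0) n).divisors ⊆ n.divisors := by
        intro d hd
        rw [Nat.mem_divisors] at hd ⊢
        exact ⟨((dvd_prt_iff hn).mp hd.1).1, hn⟩
      rw [← sum_subset h2]
      · have h3 : ∀ d ∈ (prt 0 (b 0) n).divisors, mu0 (b 0) d = ((ArithmeticFunction.moebius d : ℤ) : ℝ) := by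
          intro d hd
          rw [Nat.mem_divisors] at hd
          have h4 := ((dvd_prt_iff hn).mp hd.1).2
          rw [mu0_apply, if_pos (sm_iff.mpr ⟨h4.1, fun p hp hpd => (h4.2 p hp hpd).2⟩)]
        rw [sum_congr rfl h3, ← Int.cast_sum, ← ArithmeticFunction.coe_mul_zeta_apply,
          ArithmeticFunction.moebius_mul_coe_zeta, ArithmeticFunction.one_apply]
        have h5 : prt 0 (b 0) n = 1 ↔ Ob 0 (b 0) n = 0 := by
          rw [Ob0_iff hn]
          constructor
          · intro h p hp hd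
            by_contra hc
            push Not at hc
            have : p ∣ prt 0 (b 0) n := by
              rw [fact_pos_iff hp (prt_ne _ _ _), prt_fact, if_pos ⟨Nat.zero_le _, hc⟩]
              exact (fact_pos_iff hp hn).mp hd
            rw [h] at this
            exact hp.one_lt.ne' (Nat.dvd_one.mp this)
          · intro h
            rw [Nat.eq_one_iff_not_exists_prime_dvd]
            intro p hp hd
            have h6 := (dvd_prt_iff hn).mp hd
            have h7 := h p hp h6.1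
            have h8 := h6.2.2 p hp dvd_rfl
            omega
        by_cases h6 : Ob 0 (b 0) n = 0
        · rw [if_pos h6, if_pos (h5.mpr h6)]
          simp
        · rw [if_neg h6, if_neg (fun h => h6 (h5.mp h))]
          simp
      · intro d hd hd2
        rw [Nat.mem_divisors] at hd
        by_contra hc
        apply hd2
        rw [Nat.mem_divisors]
        exact ⟨(dvd_prt_iff hn).mpr ⟨hd.1, (mu0_in hc).1⟩, prt_ne _ _ _⟩
    rw [h1]
    split_ifs
    · rw [one_mul]
    · rw [zero_mul]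
  · intro d e hd he
    have i2 : In (b 0) (b (J + 1)) e := by
      by_contra hc
      exact he (fQ_out hc)
    exact (mu0_in hd).1.coprime i2 le_rfl

end Pool.Agent.Q175.KZ
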