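import Pool.Agent.Q175.KZ.Blk

set_option autoImplicit false

/-! Project KZ: the Dirichlet polynomials are products over the blocks. -/

namespace Pool.Agent.Q175.KZ

open Pool.Agent.Q276.KZ Pool.Agent.Q276.CD Pool.Agent.Q251.CD Finset

lemma Dr_mul {f g : ArithmeticFunction ℝ} {A B Y : ℕ} (hf : ∀ n, f n ≠ 0 → n ≤ A) (hg : ∀ n, g n ≠ 0 → n ≤ B)
    (hY : A * B ≤ Y) (s : ℂ) : Dr (f * g) Y s = Dr f Y s * Dr g Y s := by
  classical
  unfold Dr Dp
  beta_reduce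
  rw [sum_mul_sum, ← sum_product']
  have h1 : ∀ k ∈ Icc 1 Y, (((f * g) k : ℝ) : ℂ) * (k : ℂ) ^ (-s) =
      ∑ x ∈ k.divisorsAntidiagonal, ((f x.1 : ℝ) : ℂ) * (x.1 : ℂ) ^ (-s) * (((g x.2 : ℝ) : ℂ) * (x.2 : ℂ) ^ (-s)) := by
    intro k _
    rw [ArithmeticFunction.mul_apply, Complex.ofReal_sum, sum_mul]
    refine sum_congr rfl fun x hx => ?_
    rw [Nat.mem_divisorsAntidiagonal] at hx
    rw [← hx.1]
    push_cast
    rw [Complex.natCast_mul_natCast_cpow]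
    ring
  rw [sum_congr rfl h1, sum_sigma']
  have h2 : ∑ x ∈ Icc 1 Y ×ˢ Icc 1 Y, ((f x.1 : ℝ) : ℂ) * (x.1 : ℂ) ^ (-s) * (((g x.2 : ℝ) : ℂ) * (x.2 : ℂ) ^ (-s)) =
      ∑ x ∈ (Icc 1 Y ×ˢ Icc 1 Y).filter (fun x => x.1 * x.2 ≤ Y),
        ((f x.1 : ℝ) : ℂ) * (x.1 : ℂ) ^ (-s) * (((g x.2 : ℝ) : ℂ) * (x.2 : ℂ) ^ (-s)) := by
    rw [sum_filter]
    refine sum_congr rfl fun x _ => ?_
    split_ifs with hd
    · rfl
    · by_cases h3 : f x.1 = 0
      · rw [h3]; simp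
      by_cases h4 : g x.2 = 0
      · rw [h4]; simp
      exact absurd ((Nat.mul_le_mul (hf _ h3) (hg _ h4)).trans hY) hd
  rw [h2]
  refine sum_bij' (fun x _ => x.2) (fun x _ => ⟨x.1 * x.2, x⟩) ?_ ?_ ?_ ?_ ?_
  · rintro ⟨k, x⟩ hx
    rw [mem_sigma, mem_Icc, Nat.mem_divisorsAntidiagonal] at hx
    simp only at hx ⊢
    rw [mem_filter, mem_product, mem_Icc, mem_Icc]
    obtain ⟨⟨h3, h4⟩, h5, h6⟩ := hx
    have h7 : x.1 ≠ 0 := by rintro h; rw [h, zero_mul] at h5; omega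
    have h8 : x.2 ≠ 0 := by rintro h; rw [h, mul_zero] at h5; omega
    have h9 : x.1 ≤ x.1 * x.2 := Nat.le_mul_of_pos_right _ (Nat.pos_of_ne_zero h8)
    have h10 : x.2 ≤ x.1 * x.2 := Nat.le_mul_of_pos_left _ (Nat.pos_of_ne_zero h7)
    exact ⟨⟨⟨by omega, by omega⟩, by omega, by omega⟩, by omega⟩
  · rintro x hx
    rw [mem_filter, mem_product, mem_Icc, mem_Icc] at hx
    rw [mem_sigma, mem_Icc, Nat.mem_divisorsAntidiagonal]
    have h7 : 0 < x.1 * x.2 := Nat.mul_pos (by omega) (by omega)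
    exact ⟨⟨h7, hx.2⟩, rfl, h7.ne'⟩
  · rintro ⟨k, x⟩ hx
    rw [mem_sigma, mem_Icc, Nat.mem_divisorsAntidiagonal] at hx
    simp only at hx ⊢
    rw [hx.2.1]
  · intro x _
    rfl
  · rintro ⟨k, x⟩ _
    rfl

lemma In_le {a c n D : ℕ} (h : In a c n) (hc : 1 ≤ c) (hD : Ob a c n ≤ D) : n ≤ c ^ D := by
  have h1 : n = ∏ p ∈ n.primeFactors, p ^ n.factorization p := by
    conv_lhs => rw [← Nat.prod_factorization_pow_eq_self h.1]
    rw [Finsupp.prod, Nat.support_factorization]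
  have h2 : Ob a c n = ∑ p ∈ n.primeFactors, n.factorization p := by
    rw [Ob_eq_sum]
    refine sum_congr rfl fun p hp => ?_
    rw [Nat.mem_primeFactors] at hp
    rw [if_pos (h.2 p hp.1 hp.2.1)]
  calc n = ∏ p ∈ n.primeFactors, p ^ n.factorization p := h1
    _ ≤ ∏ p ∈ n.primeFactors, c ^ n.factorization p := by
        refine prod_le_prod' fun p hp => ?_
        rw [Nat.mem_primeFactors] at hp
        exact Nat.pow_le_pow_left (h.2 p hp.1 hp.2.1).2.le _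
    _ = c ^ Ob a c n := by rw [prod_pow_eq_pow_sum, h2]
    _ ≤ c ^ D := Nat.pow_le_pow_right hc hD

lemma fB_le {a c D : ℕ} {q : ℕ → ℝ} (hc : 1 ≤ c) (hq : ∀ m, D < m → q m = 0) (n : ℕ) (h : fB a c q n ≠ 0) :
    n ≤ c ^ D := by
  by_cases hn : In a c n
  · refine In_le hn hc ?_
    by_contra hD
    rw [fB_in hn, hq _ (by omega), mul_zero] at h
    exact h rfl
  · exact absurd (fB_out hn) h

open Classical in
/-- `n^{-s}` restricted to the numbers without prime factors below `a` -/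
noncomputable def cpR (a : ℕ) (s : ℂ) : ℕ →* ℂ where
  toFun n := if (∀ p : ℕ, p.Prime → p ∣ n → a ≤ p) then (n : ℂ) ^ (-s) else 0
  map_one' := by
    rw [if_pos]
    · simp
    · intro p hp hd
      exact absurd (Nat.dvd_one.mp hd) hp.ne_one
  map_mul' m n := by
    by_cases hm : ∀ p : ℕ, p.Prime → p ∣ m → a ≤ p
    · by_cases hn : ∀ p : ℕ, p.Prime → p ∣ n → a ≤ p
      · rw [if_pos hm, if_pos hn, if_pos]
        · push_cast
          exact Complex.natCast_mul_natCast_cpow m n (-s)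
        · intro p hp hd
          rcases (Nat.Prime.dvd_mul hp).mp hd with h | h
          · exact hm p hp h
          · exact hn p hp h
      · rw [if_neg hn, mul_zero, if_neg]
        intro hc
        exact hn fun p hp hd => hc p hp (hd.mul_left m)
    · rw [if_neg hm, zero_mul, if_neg]
      intro hc
      exact hm fun p hp hd => hc p hp (hd.mul_right n)

open Classical in
lemma cpR_apply (a : ℕ) (s : ℂ) (n : ℕ) :
    cpR a s n = if (∀ p : ℕ, p.Prime → p ∣ n → a ≤ p) then (n : ℂ) ^ (-s) else 0 := rfl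

lemma PB_eq (a c : ℕ) (s : ℂ) : ∑ p ∈ Nat.primesBelow c, cpR a s p = PB a c s := by
  classical
  unfold PB
  rw [sum_filter]
  refine sum_congr rfl fun p hp => ?_
  have hp' := Nat.prime_of_mem_primesBelow hp
  rw [cpR_apply]
  by_cases h : a ≤ p
  · rw [if_pos h, if_pos]
    intro q hq hd
    rw [(Nat.prime_dvd_prime_iff_eq hq hp').mp hd]
    exact h
  · rw [if_neg h, if_neg]
    intro hc
    exact h (hc p hp' dvd_rfl)

lemma PB_pow (a c m Y : ℕ) (hY : c ^ m ≤ Y) (s : ℂ) : PB a c s ^ m =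
    ∑ n ∈ Sj c m Y, (((m.factorial : ℝ) * mf (ek 1) n : ℝ) : ℂ) * cpR a s n := by
  have h := pow_id (cpR a s) hY
  rw [PB_eq] at h
  rw [h]
  refine sum_congr rfl fun n hn => ?_
  rw [mem_Sj] at hn
  have h2 := mult_eq hn.2.1
  rw [hn.2.2] at h2
  rw [← h2]
  push_cast
  rfl

lemma Ob_split3 {a c n : ℕ} (h : In a c n) : Ob 0 c n = Ob a c n := by
  rw [Ob_eq_sum, Ob_eq_sum]
  refine sum_congr rfl fun p hp => ?_
  rw [Nat.mem_primeFactors] at hp
  have := h.2 p hp.1 hp.2.1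
  rw [if_pos this, if_pos ⟨Nat.zero_le _, this.2⟩]

/-- one block -/
lemma Dr_fB {a c D Y : ℕ} {q : ℕ → ℝ} (hc : 1 ≤ c) (hq : ∀ m, D < m → q m = 0) (hY : c ^ D ≤ Y) (s : ℂ) :
    Dr (fB a c q) Y s = ∑ m ∈ range (D + 1), (q m : ℂ) * PB a c s ^ m / (m.factorial : ℂ) := by
  classical
  have h1 : ∀ j ∈ range (D + 1), (q j : ℂ) * PB a c s ^ j / (j.factorial : ℂ) =
      ∑ n ∈ Sj c j Y, ((fB a c q n : ℝ) : ℂ) * (n : ℂ) ^ (-s) := by
    intro j hj
    rw [mem_range] at hj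
    have hY' : c ^ j ≤ Y := (Nat.pow_le_pow_right hc (by omega)).trans hY
    rw [PB_pow a c j Y hY' s, mul_sum, sum_div]
    refine sum_congr rfl fun n hn => ?_
    rw [mem_Sj] at hn
    rw [cpR_apply]
    have hj0 : (j.factorial : ℂ) ≠ 0 := by exact_mod_cast Nat.factorial_ne_zero _
    by_cases hr : ∀ p : ℕ, p.Prime → p ∣ n → a ≤ p
    · have hin : In a c n := ⟨(sm_iff.mp hn.2.1).1, fun p hp hd => ⟨hr p hp hd, (sm_iff.mp hn.2.1).2 p hp hd⟩⟩
      rw [if_pos hr, fB_in hin, ← Ob_split3 hin, hn.2.2]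
      push_cast
      field_simp
    · rw [if_neg hr, fB_out]
      · simp
      · intro hin
        exact hr fun p hp hd => (hin.2 p hp hd).1
  rw [sum_congr rfl h1]
  have h3 : ∑ j ∈ range (D + 1), ∑ n ∈ Sj c j Y, ((fB a c q n : ℝ) : ℂ) * (n : ℂ) ^ (-s) =
      ∑ j ∈ range (D + 1), ∑ n ∈ ((Icc 1 Y).filter fun n => n ∈ Nat.smoothNumbers c ∧ Ob 0 c n ≤ D).filter
      (fun n => Ob 0 c n = j), ((fB a c q n : ℝ) : ℂ) * (n : ℂ) ^ (-s) := by
    refine sum_congr rfl fun j hj => ?_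
    rw [mem_range] at hj
    congr 1
    ext n
    rw [mem_Sj, mem_filter, mem_filter, mem_Icc]
    constructor
    · rintro ⟨a, b, c⟩; exact ⟨⟨a, b, by omega⟩, c⟩
    · rintro ⟨⟨a, b, c⟩, e⟩; exact ⟨a, b, e⟩
  rw [h3, sum_fiberwise_of_maps_to]
  · rw [sum_filter]
    unfold Dr Dp
    refine sum_congr rfl fun n _ => ?_
    beta_reduce
    split_ifs with h
    · rfl
    · by_cases hin : In a c n
      · have h4 : D < Ob a c n := by
          by_contra hc'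
          exact h ⟨(in_iff.mpr hin).1, by rw [Ob_split3 hin]; omega⟩
        rw [fB_in hin, hq _ h4]
        simp
      · rw [fB_out hin]
        simp
  · intro n hn
    rw [mem_filter] at hn
    rw [mem_range]
    omega

lemma fQ_le {b : ℕ → ℕ} {J : ℕ} {Q : ℕ → ℕ → ℝ} {D : ℕ → ℕ} (hb0 : 1 ≤ b 0) :
    (∀ j ≤ J, b j ≤ b (j + 1)) → (∀ j ≤ J, ∀ m, D j < m → Q j m = 0) →
    ∀ n, fQ b J Q n ≠ 0 → n ≤ ∏ j ∈ range (J + 1), b (j + 1) ^ D j := by
  induction J with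
  | zero =>
    intro hb hQ n hn
    rw [fQ_zero] at hn
    have := fB_le (hb0.trans (hb 0 le_rfl)) (hQ 0 le_rfl) n hn
    simpa using this
  | succ J ih =>
    intro hb hQ n hn
    rw [fQ_succ Q hb, ArithmeticFunction.mul_apply] at hn
    obtain ⟨x, hx, hne⟩ := exists_ne_zero_of_sum_ne_zero hn
    rw [Nat.mem_divisorsAntidiagonal] at hx
    rw [← hx.1, prod_range_succ (fun j => b (j + 1) ^ D j) (J + 1)]
    refine Nat.mul_le_mul (ih (fun j hj => hb j (by omega)) (fun j hj => hQ j (by omega)) _ (left_ne_zero_of_mul hne)) ?_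
    exact fB_le (hb0.trans (b_mono hb 0 (J + 2) (Nat.zero_le _) (by omega))) (hQ (J + 1) le_rfl) _
      (right_ne_zero_of_mul hne)

theorem t_PR : P_PR := by
  intro b J Q D Y hb0 hb hQ hY s
  induction J with
  | zero =>
    rw [fQ_zero, Dr_fB (hb0.trans (hb 0 le_rfl)) (hQ 0 le_rfl) (by simpa using hY) s]
    simp
  | succ J ih =>
    have hc : ∀ i, i ≤ J + 2 → 1 ≤ b i := fun i hi => hb0.trans (b_mono hb 0 i (Nat.zero_le _) (by omega))
    rw [prod_range_succ (fun j => b (j + 1) ^ D j) (J + 1)] at hY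
    have hp1 : 0 < b (J + 1 + 1) ^ D (J + 1) := pow_pos (hc (J + 2) (by omega)) _
    have hp2 : 0 < ∏ j ∈ range (J + 1), b (j + 1) ^ D j := prod_pos fun j hj => by
      rw [mem_range] at hj
      exact pow_pos (hc (j + 1) (by omega)) _
    rw [fQ_succ Q hb, Dr_mul (fQ_le hb0 (fun j hj => hb j (by omega)) (fun j hj => hQ j (by omega)))
      (fB_le (hc (J + 2) (by omega)) (hQ (J + 1) le_rfl)) hY s,
      ih (fun j hj => hb j (by omega)) (fun j hj => hQ j (by omega)) ((Nat.le_mul_of_pos_right _ hp1).trans hY),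
      Dr_fB (hc (J + 2) (by omega)) (hQ (J + 1) le_rfl) ((Nat.le_mul_of_pos_left _ hp2).trans hY) s,
      prod_range_succ (fun j => ∑ m ∈ range (D j + 1), (Q j m : ℂ) * PB (b j) (b (j + 1)) s ^ m / (m.factorial : ℂ))
        (J + 1)]

lemma mu0_le {B n : ℕ} (h : mu0 B n ≠ 0) : n ≤ 4 ^ B := by
  obtain ⟨h1, h2⟩ := mu0_in h
  refine le_trans ?_ (primorial_le_four_pow B)
  rw [← Nat.prod_primeFactors_of_squarefree h2]
  unfold primorial
  refine prod_le_prod_of_subset_of_one_le' ?_ ?_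
  · intro p hp
    rw [Nat.mem_primeFactors] at hp
    rw [mem_filter, mem_range]
    exact ⟨(h1.2 p hp.1 hp.2.1).2.trans (Nat.lt_succ_self _), hp.1⟩
  · intro p hp _
    rw [mem_filter] at hp
    exact hp.2.one_lt.le

theorem t_PRM : P_PRM := by
  intro b J Q D Y hb0 hb hQ hY
  have h1 := fQ_le hb0 hb hQ
  have h2 : ∀ n, fQ b J Q n ≠ 0 → n ∈ Nat.smoothNumbers (b (J + 1)) := by
    intro n hn
    by_cases h : In (b 0) (b (J + 1)) n
    · exact (in_iff.mpr h).1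
    · exact absurd (fQ_out h) hn
  refine ⟨?_, fun n hn => ⟨h1 n hn, h2 n hn⟩, fun n hn => mu0_le hn, fun s => ?_⟩
  · intro n hn
    rw [ArithmeticFunction.mul_apply] at hn
    obtain ⟨x, hx, hne⟩ := exists_ne_zero_of_sum_ne_zero hn
    rw [Nat.mem_divisorsAntidiagonal] at hx
    have e1 := left_ne_zero_of_mul hne
    have e2 := right_ne_zero_of_mul hne
    rw [← hx.1]
    refine ⟨Nat.mul_le_mul (mu0_le e1) (h1 _ e2), ?_⟩
    rw [sm_mul]
    refine ⟨?_, h2 _ e2⟩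
    have := (mu0_in e1).1.mono le_rfl (b_mono hb 0 (J + 1) (Nat.zero_le _) le_rfl)
    exact sm_iff.mpr ⟨this.1, fun p hp hd => (this.2 p hp hd).2⟩
  · exact Dr_mul (fun n hn => mu0_le hn) h1 hY s

end Pool.Agent.Q175.KZ
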