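import Pool.Agent.Q276.KZ.Stm

set_option autoImplicit false

/-! Project KZ: sums over rough numbers. -/

namespace Pool.Agent.Q175.KZ

open Pool.Agent.Q276.KZ Pool.Agent.Q276.CD Finset

lemma loglog_le_one {N : ℕ} (h2 : 2 ≤ N) (h3 : N ≤ 3) : Real.log (Real.log N) ≤ 1 := by
  have h2' : (2:ℝ) ≤ N := by exact_mod_cast h2
  have h3' : (N:ℝ) ≤ 3 := by exact_mod_cast h3
  have e1 : 0 < Real.log N := Real.log_pos (by linarith)
  have e2 := Real.log_le_sub_one_of_pos e1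
  have e3 := Real.log_le_sub_one_of_pos (show (0:ℝ) < N by linarith)
  linarith

lemma R1_low : ∃ C : ℝ, 0 ≤ C ∧ ∀ N : ℕ, 2 ≤ N → Real.log (Real.log N) - C ≤ R1 N := by
  obtain ⟨C, hC0, hC⟩ := R1_bd
  refine ⟨C + 1, by linarith, fun N hN => ?_⟩
  rcases le_or_gt N 3 with h | h
  · have := loglog_le_one hN h
    have := R1_nonneg N
    linarith
  · have h1 := hC (N - 1) (by omega)
    rw [Nat.sub_add_cancel (by omega)] at h1
    have h4 : (4:ℝ) ≤ N := by exact_mod_cast h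
    have h2 : (((N - 1 : ℕ)) : ℝ) = (N:ℝ) - 1 := by
      rw [Nat.cast_sub (by omega)]; norm_num
    rw [h2] at h1
    have h5 : 0 < Real.log N := Real.log_pos (by linarith)
    have h6 : Real.log N / 2 ≤ Real.log ((N:ℝ) - 1) := by
      rw [div_le_iff₀ (by norm_num)]
      have : Real.log ((N:ℝ) - 1) * 2 = Real.log (((N:ℝ) - 1) ^ 2) := by
        rw [Real.log_pow]; ring
      rw [this]
      exact Real.log_le_log (by linarith) (by nlinarith)
    have h7 : Real.log (Real.log N / 2) ≤ Real.log (Real.log ((N:ℝ) - 1)) := Real.log_le_log (by positivity) h6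
    rw [Real.log_div h5.ne' (by norm_num)] at h7
    have h8 : Real.log 2 ≤ 1 := by
      have := Real.log_le_sub_one_of_pos (show (0:ℝ) < 2 by norm_num)
      linarith
    have := (abs_le.mp h1).1
    linarith

lemma R1_upp : ∃ C : ℝ, 0 ≤ C ∧ ∀ N : ℕ, 2 ≤ N → R1 (N + 1) ≤ Real.log (Real.log N) + C := by
  obtain ⟨C, hC0, hC⟩ := R1_bd
  refine ⟨C + 2, by linarith, fun N hN => ?_⟩
  rcases le_or_gt 3 N with h | h
  · have := (abs_le.mp (hC N h)).2
    linarith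
  · have h2 : N = 2 := by omega
    subst h2
    have h3 := (abs_le.mp (hC 3 le_rfl)).2
    have h4 := loglog_le_one (N := 3) (by norm_num) le_rfl
    have h5 : R1 (2 + 1) ≤ R1 (3 + 1) := R1_mono (by norm_num)
    have h6 : (-1:ℝ) ≤ Real.log (Real.log (2:ℕ)) := by
      have e1 : (1/2:ℝ) ≤ Real.log (2:ℕ) := by
        have := Real.log_two_gt_d9
        push_cast
        linarith
      have e2 : Real.log (1/2:ℝ) ≤ Real.log (Real.log (2:ℕ)) := Real.log_le_log (by norm_num) e1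
      rw [one_div, Real.log_inv] at e2
      have := Real.log_two_lt_d9
      linarith
    linarith

/-- the primes of an interval -/
lemma R1_sub {N Y : ℕ} (h : N ≤ Y + 1) : ∑ p ∈ (Nat.primesBelow (Y + 1)).filter (fun p => N ≤ p), 1 / (p:ℝ) =
    R1 (Y + 1) - R1 N := by
  unfold R1
  rw [← sum_filter_add_sum_filter_not (Nat.primesBelow (Y + 1)) (fun p => N ≤ p)]
  have : (Nat.primesBelow (Y + 1)).filter (fun p => ¬ N ≤ p) = Nat.primesBelow N := by
    ext p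
    rw [mem_filter, Nat.mem_primesBelow, Nat.mem_primesBelow]
    constructor
    · rintro ⟨⟨_, h2⟩, h3⟩; exact ⟨by omega, h2⟩
    · rintro ⟨h1, h2⟩; exact ⟨⟨by omega, h2⟩, by omega⟩
  rw [this]
  ring

/-- Mertens on intervals -/
lemma R1_int : ∃ C : ℝ, 0 ≤ C ∧ ∀ N Y : ℕ, 2 ≤ N → N ≤ Y →
    ∑ p ∈ (Nat.primesBelow (Y + 1)).filter (fun p => N ≤ p), 1 / (p:ℝ) ≤ Real.log (Real.log Y / Real.log N) + C := by
  obtain ⟨C1, h1, H1⟩ := R1_low
  obtain ⟨C2, h2, H2⟩ := R1_upp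
  refine ⟨C1 + C2, by linarith, fun N Y hN hY => ?_⟩
  rw [R1_sub (by omega)]
  have hN' : (2:ℝ) ≤ N := by exact_mod_cast hN
  have hY' : (2:ℝ) ≤ Y := by exact_mod_cast hN.trans hY
  rw [Real.log_div (Real.log_pos (by linarith)).ne' (Real.log_pos (by linarith)).ne']
  have := H1 N hN
  have := H2 Y (hN.trans hY)
  linarith

lemma mem_rgh {N a Y r : ℕ} : r ∈ rgh N a Y ↔ (a ≤ r ∧ r ≤ Y) ∧ ∀ p : ℕ, p.Prime → p ∣ r → N ≤ p := by
  classical
  unfold rgh
  rw [mem_filter, mem_Icc]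

lemma geo_half {x : ℝ} (h0 : 0 ≤ x) (h1 : x ≤ 1 / 2) : Summable (fun j : ℕ => x ^ j) ∧ ∑' j : ℕ, x ^ j ≤ Real.exp (2 * x) := by
  refine ⟨summable_geometric_of_lt_one h0 (by linarith), ?_⟩
  rw [tsum_geometric_of_lt_one h0 (by linarith)]
  have h2 : (1 - x)⁻¹ ≤ 1 + 2 * x := by
    rw [inv_le_iff_one_le_mul₀ (by linarith)]
    nlinarith
  have h3 := Real.add_one_le_exp (2 * x)
  linarith

lemma geo_p {p : ℕ} (hp : 2 ≤ p) : Summable (fun j : ℕ => 1 / (p:ℝ) ^ j) ∧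
    ∑' j : ℕ, 1 / (p:ℝ) ^ j ≤ Real.exp (1 / p + 2 * (1 / (p:ℝ) ^ 2)) := by
  have hp' : (2:ℝ) ≤ p := by exact_mod_cast hp
  have h0 : (0:ℝ) ≤ 1 / p := by positivity
  have h1 : 1 / (p:ℝ) < 1 := by rw [div_lt_one (by linarith)]; linarith
  have e : (fun j : ℕ => 1 / (p:ℝ) ^ j) = fun j : ℕ => (1 / (p:ℝ)) ^ j := by
    funext j
    rw [div_pow, one_pow]
  rw [e]
  refine ⟨summable_geometric_of_lt_one h0 h1, ?_⟩
  rw [tsum_geometric_of_lt_one h0 h1]
  have h2 : (1 - 1 / (p:ℝ))⁻¹ ≤ 1 + (1 / p + 2 * (1 / (p:ℝ) ^ 2)) := by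
    rw [inv_le_iff_one_le_mul₀ (by linarith)]
    have h3 : 1 / (p:ℝ) ≤ 1 / 2 := by
      rw [div_le_div_iff₀ (by linarith) (by norm_num)]; linarith
    have h4 : 1 / (p:ℝ) ^ 2 = (1 / (p:ℝ)) ^ 2 := by rw [div_pow, one_pow]
    rw [h4]
    set y := 1 / (p:ℝ)
    nlinarith [mul_nonneg h0 h0, mul_nonneg (mul_nonneg h0 h0) (sub_nonneg.mpr h3)]
  have h3 := Real.add_one_le_exp (1 / (p:ℝ) + 2 * (1 / (p:ℝ) ^ 2))
  linarith

/-- local values for the rough numbers -/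
noncomputable def rl (N : ℕ) (δ : ℝ) (p j : ℕ) : ℝ := if N ≤ p then ((p:ℝ) ^ (-δ)) ^ j else if j = 0 then 1 else 0

lemma rl_zero (N : ℕ) (δ : ℝ) (p : ℕ) : rl N δ p 0 = 1 := by
  unfold rl; split_ifs <;> simp_all

lemma rl_nonneg (N : ℕ) (δ : ℝ) (p j : ℕ) : 0 ≤ rl N δ p j := by
  unfold rl; split_ifs <;> positivity

lemma rl_rough {N r : ℕ} (δ : ℝ) (hr : r ≠ 0) (h : ∀ p : ℕ, p.Prime → p ∣ r → N ≤ p) :
    mf (rl N δ) r = (r:ℝ) ^ (-δ) := by
  have h1 : mf (rl N δ) r = ∏ p ∈ r.primeFactors, ((p:ℝ) ^ r.factorization p) ^ (-δ) := by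
    unfold mf
    refine prod_congr rfl fun p hp => ?_
    rw [Nat.mem_primeFactors] at hp
    unfold rl
    rw [if_pos (h p hp.1 hp.2.1), ← Real.rpow_natCast, ← Real.rpow_natCast, ← Real.rpow_mul (Nat.cast_nonneg p),
      ← Real.rpow_mul (Nat.cast_nonneg p), mul_comm]
  rw [h1, Real.finsetProd_rpow _ _ (fun p _ => by positivity)]
  congr 1
  conv_rhs => rw [← Nat.prod_factorization_pow_eq_self hr]
  rw [Finsupp.prod, Nat.support_factorization]
  push_cast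
  rfl

lemma rl_sum (N : ℕ) (δ : ℝ) {p : ℕ} (hp : p.Prime) : ∀ j : ℕ, rl N δ p j / (p:ℝ) ^ j =
    if N ≤ p then ((p:ℝ) ^ (-(1 + δ))) ^ j else if j = 0 then 1 else 0 := by
  intro j
  have hp0 : (0:ℝ) < p := by exact_mod_cast hp.pos
  unfold rl
  split_ifs with h1 h2
  · rw [← div_pow]
    congr 1
    rw [neg_add, Real.rpow_add hp0, Real.rpow_neg_one]
    field_simp
  · rw [h2]; simp
  · simp

lemma sum_rgh_le {N Y : ℕ} (δ : ℝ) {c : ℕ → ℝ}
    (hc : ∀ p : ℕ, p.Prime → N ≤ p → Summable (fun j : ℕ => ((p:ℝ) ^ (-(1 + δ))) ^ j) ∧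
      ∑' j : ℕ, ((p:ℝ) ^ (-(1 + δ))) ^ j ≤ Real.exp (c p)) :
    ∑ r ∈ rgh N 1 Y, (r:ℝ) ^ (-(1 + δ)) ≤ Real.exp (∑ p ∈ (Nat.primesBelow (Y + 1)).filter (fun p => N ≤ p), c p) := by
  have h1 : ∀ p : ℕ, p.Prime → Summable fun j : ℕ => rl N δ p j / (p:ℝ) ^ j := by
    intro p hp
    rw [show (fun j : ℕ => rl N δ p j / (p:ℝ) ^ j) = fun j : ℕ =>
      if N ≤ p then ((p:ℝ) ^ (-(1 + δ))) ^ j else if j = 0 then 1 else 0 from funext (rl_sum N δ hp)]
    by_cases h : N ≤ p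
    · simp only [if_pos h]
      exact (hc p hp h).1
    · simp only [if_neg h]
      exact (hasSum_ite_eq 0 (1:ℝ)).summable
  have h2 : ∀ p : ℕ, p.Prime → p < Y + 1 → ∑' j : ℕ, rl N δ p j / (p:ℝ) ^ j ≤
      Real.exp ((fun p => if N ≤ p then c p else 0) p) := by
    intro p hp _
    rw [show (fun j : ℕ => rl N δ p j / (p:ℝ) ^ j) = fun j : ℕ =>
      if N ≤ p then ((p:ℝ) ^ (-(1 + δ))) ^ j else if j = 0 then 1 else 0 from funext (rl_sum N δ hp)]
    by_cases h : N ≤ p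
    · simp only [if_pos h]
      exact (hc p hp h).2
    · simp only [if_neg h]
      rw [tsum_ite_eq 0 (fun _ => (1:ℝ)), Real.exp_zero]
  obtain ⟨h3, h4⟩ := ep_bound (rl_zero N δ) (rl_nonneg N δ) h1 h2
  have h5 := fin_le_SS h3 (fun n _ => mf_nonneg (rl_nonneg N δ) n) (F := rgh N 1 Y) (fun n hn => by
    rw [mem_rgh] at hn
    rw [sm_iff]
    exact ⟨by omega, fun p hp hd => (Nat.le_of_dvd (by omega) hd).trans_lt (by omega)⟩)
  have h6 : ∑ n ∈ rgh N 1 Y, mf (rl N δ) n / (n:ℝ) = ∑ r ∈ rgh N 1 Y, (r:ℝ) ^ (-(1 + δ)) := by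
    refine sum_congr rfl fun r hr => ?_
    rw [mem_rgh] at hr
    have hr0 : (0:ℝ) < r := by exact_mod_cast (by omega : 0 < r)
    rw [rl_rough δ (by omega) hr.2, neg_add, Real.rpow_add hr0, Real.rpow_neg_one]
    field_simp
  rw [h6] at h5
  refine (h5.trans h4).trans (le_of_eq ?_)
  rw [sum_filter]

lemma exp_tail {x : ℝ} (hx : 1 ≤ x) (n : ℕ) : ∑ i ∈ range n, Real.exp (-(2 ^ i * x)) ≤
    Real.exp (-x) * 2 := by
  have h1 : ∀ i ∈ range n, Real.exp (-(2 ^ i * x)) ≤ Real.exp (-x) * (1 / 2) ^ i := by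
    intro i _
    have h2 : (1:ℝ) + i ≤ 2 ^ i := by
      have : i < 2 ^ i := Nat.lt_two_pow_self
      exact_mod_cast (by omega : 1 + i ≤ 2 ^ i)
    have h3 : Real.exp (-(2 ^ i * x)) ≤ Real.exp (-x + -(i:ℝ)) := by
      apply Real.exp_le_exp.mpr
      have h4 : (0:ℝ) ≤ i := Nat.cast_nonneg i
      nlinarith [mul_le_mul_of_nonneg_right h2 (show (0:ℝ) ≤ x by linarith), mul_le_mul_of_nonneg_left hx h4]
    refine h3.trans ?_
    rw [Real.exp_add]
    refine mul_le_mul_of_nonneg_left ?_ (Real.exp_pos _).le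
    have h5 : Real.exp (-(i:ℝ)) = (Real.exp (-1)) ^ i := by
      rw [← Real.exp_nat_mul]; ring_nf
    rw [h5]
    refine pow_le_pow_left₀ (Real.exp_pos _).le ?_ i
    have h6 := Real.add_one_le_exp (1:ℝ)
    rw [Real.exp_neg, one_div]
    exact inv_anti₀ (by norm_num) (by linarith)
  refine (sum_le_sum h1).trans ?_
  rw [← mul_sum]
  refine mul_le_mul_of_nonneg_left ?_ (Real.exp_pos _).le
  exact (sum_le_tsum_of_geo n)
where
  sum_le_tsum_of_geo (n : ℕ) : ∑ i ∈ range n, (1 / 2 : ℝ) ^ i ≤ 2 := by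
    have := Summable.sum_le_tsum (range n) (fun i _ => by positivity) summable_geometric_two
    rw [tsum_geometric_two] at this
    exact this

/-- the sum over the primes -/
lemma prime_tail : ∃ C : ℝ, 0 ≤ C ∧ ∀ N Y : ℕ, 2 ≤ N → N ≤ Y → ∀ δ : ℝ, 0 < δ → 1 ≤ δ * Real.log N →
    ∑ p ∈ (Nat.primesBelow (Y + 1)).filter (fun p => N ≤ p), (p:ℝ) ^ (-(1 + δ)) ≤
      C * Real.exp (-(δ * Real.log N)) := by
  obtain ⟨C, hC0, hC⟩ := R1_int
  refine ⟨2 * (Real.log 2 + C), by have := Real.log_two_gt_d9; linarith, fun N Y hN hY δ hδ hx => ?_⟩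
  have hN' : (2:ℝ) ≤ N := by exact_mod_cast hN
  have hlN : 0 < Real.log N := Real.log_pos (by linarith)
  set B : ℕ → Finset ℕ := fun i => (Nat.primesBelow (N ^ 2 ^ (i + 1) + 1)).filter (fun p => N ^ 2 ^ i ≤ p) with hB
  have hcov : (Nat.primesBelow (Y + 1)).filter (fun p => N ≤ p) ⊆ (range (Y + 1)).biUnion B := by
    intro p hp
    rw [mem_filter, Nat.mem_primesBelow] at hp
    obtain ⟨⟨h1, h2⟩, h3⟩ := hp
    rw [mem_biUnion]
    have hm1 : 1 ≤ Nat.log N p := Nat.log_pos (by omega) h3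
    refine ⟨Nat.log 2 (Nat.log N p), ?_, ?_⟩
    · rw [mem_range]
      have e1 : Nat.log 2 (Nat.log N p) ≤ Nat.log N p := Nat.log_le_self _ _
      have e2 : Nat.log N p ≤ p := Nat.log_le_self _ _
      omega
    · rw [hB]
      simp only
      rw [mem_filter, Nat.mem_primesBelow]
      have e1 : 2 ^ Nat.log 2 (Nat.log N p) ≤ Nat.log N p := Nat.pow_log_le_self 2 (by omega)
      have e2 : Nat.log N p < 2 ^ (Nat.log 2 (Nat.log N p) + 1) := Nat.lt_pow_succ_log_self (by omega) _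
      have e3 : N ^ Nat.log N p ≤ p := Nat.pow_log_le_self N (by omega)
      have e4 : p < N ^ (Nat.log N p + 1) := Nat.lt_pow_succ_log_self (by omega) _
      have e5 : N ^ 2 ^ Nat.log 2 (Nat.log N p) ≤ N ^ Nat.log N p := Nat.pow_le_pow_right (by omega) e1
      have e6 : N ^ (Nat.log N p + 1) ≤ N ^ 2 ^ (Nat.log 2 (Nat.log N p) + 1) := Nat.pow_le_pow_right (by omega) e2
      exact ⟨⟨by omega, h2⟩, by omega⟩
  have h1 : ∑ p ∈ (Nat.primesBelow (Y + 1)).filter (fun p => N ≤ p), (p:ℝ) ^ (-(1 + δ)) ≤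
      ∑ i ∈ range (Y + 1), ∑ p ∈ B i, (p:ℝ) ^ (-(1 + δ)) := by
    refine (sum_le_sum_of_subset_of_nonneg hcov fun _ _ _ => by positivity).trans ?_
    exact sum_biUnion_le_sum_real _ _ _ (fun _ => by positivity)
  have h2 : ∀ i ∈ range (Y + 1), ∑ p ∈ B i, (p:ℝ) ^ (-(1 + δ)) ≤
      Real.exp (-(2 ^ i * (δ * Real.log N))) * (Real.log 2 + C) := by
    intro i _
    have hNi : 2 ≤ N ^ 2 ^ i := hN.trans (Nat.le_self_pow (by positivity) N)
    have hNi2 : N ^ 2 ^ i ≤ N ^ 2 ^ (i + 1) := Nat.pow_le_pow_right (by omega) (Nat.pow_le_pow_right (by omega) (by omega))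
    have h3 : ∀ p ∈ B i, (p:ℝ) ^ (-(1 + δ)) ≤ Real.exp (-(2 ^ i * (δ * Real.log N))) * (1 / p) := by
      intro p hp
      rw [hB] at hp
      simp only at hp
      rw [mem_filter, Nat.mem_primesBelow] at hp
      have hp0 : (0:ℝ) < p := by exact_mod_cast hp.1.2.pos
      have hp1 : ((N:ℝ)) ^ 2 ^ i ≤ p := by exact_mod_cast hp.2
      rw [neg_add, Real.rpow_add hp0, Real.rpow_neg_one, mul_comm, one_div]
      refine mul_le_mul_of_nonneg_right ?_ (by positivity)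
      rw [Real.rpow_def_of_pos hp0]
      apply Real.exp_le_exp.mpr
      have h4 : Real.log (((N:ℝ)) ^ 2 ^ i) ≤ Real.log p := Real.log_le_log (by positivity) hp1
      rw [Real.log_pow] at h4
      push_cast at h4
      nlinarith
    refine (sum_le_sum h3).trans ?_
    rw [← mul_sum]
    refine mul_le_mul_of_nonneg_left ?_ (Real.exp_pos _).le
    refine (hC (N ^ 2 ^ i) (N ^ 2 ^ (i + 1)) hNi hNi2).trans ?_
    refine add_le_add (le_of_eq ?_) le_rfl
    congr 1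
    have h5 : Real.log ((N ^ 2 ^ (i + 1) : ℕ) : ℝ) = 2 * Real.log ((N ^ 2 ^ i : ℕ) : ℝ) := by
      push_cast
      rw [Real.log_pow, Real.log_pow]
      push_cast
      ring
    have h6 : 0 < Real.log ((N ^ 2 ^ i : ℕ) : ℝ) := Real.log_pos (by exact_mod_cast hNi)
    rw [h5, mul_div_assoc, div_self h6.ne', mul_one]
  refine (h1.trans (sum_le_sum h2)).trans ?_
  rw [← sum_mul]
  have h3 := exp_tail hx (Y + 1)
  have h4 : 0 ≤ Real.log 2 + C := by have := Real.log_two_gt_d9; linarith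
  calc _ ≤ (Real.exp (-(δ * Real.log N)) * 2) * (Real.log 2 + C) := mul_le_mul_of_nonneg_right h3 h4
    _ = _ := by ring
where
  sum_biUnion_le_sum_real (s : Finset ℕ) (B : ℕ → Finset ℕ) (f : ℕ → ℝ) (hf : ∀ x, 0 ≤ f x) :
      ∑ x ∈ s.biUnion B, f x ≤ ∑ i ∈ s, ∑ x ∈ B i, f x := by
    classical
    induction s using Finset.induction_on with
    | empty => simp
    | insert a s ha ih =>
      rw [biUnion_insert, sum_insert ha]
      have := sum_union_inter (s₁ := B a) (s₂ := s.biUnion B) (f := f)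
      have h2 : 0 ≤ ∑ x ∈ B a ∩ s.biUnion B, f x := sum_nonneg fun x _ => hf x
      linarith

lemma rgh_split {N Y : ℕ} (hY : 1 ≤ Y) (f : ℕ → ℝ) : ∑ r ∈ rgh N 1 Y, f r = f 1 + ∑ r ∈ rgh N 2 Y, f r := by
  have h1 : rgh N 1 Y = insert 1 (rgh N 2 Y) := by
    ext r
    rw [mem_insert, mem_rgh, mem_rgh]
    constructor
    · rintro ⟨⟨h1, h2⟩, h3⟩
      rcases Nat.eq_or_lt_of_le h1 with h | h
      · exact Or.inl h.symm
      · exact Or.inr ⟨⟨h, h2⟩, h3⟩
    · rintro (h | ⟨⟨h1, h2⟩, h3⟩)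
      · subst h
        exact ⟨⟨le_rfl, hY⟩, fun p hp hd => absurd (Nat.dvd_one.mp hd) hp.ne_one⟩
      · exact ⟨⟨by omega, h2⟩, h3⟩
  rw [h1, sum_insert]
  rw [mem_rgh]
  omega

theorem t_RG : P_RG := by
  obtain ⟨C1, hC1, H1⟩ := R1_int
  obtain ⟨C2, hC2, H2⟩ := prime_tail
  have hS : Summable (fun n : ℕ => 1 / (n:ℝ) ^ 2) := Real.summable_one_div_nat_pow.mpr (by norm_num)
  set S := ∑' n : ℕ, 1 / (n:ℝ) ^ 2 with hSd
  have hS0 : 0 ≤ S := tsum_nonneg fun n => by positivity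
  refine ⟨Real.exp (C1 + 2 * S) + 2 * C2 * Real.exp (2 * C2), by positivity, fun N Y hN hY => ⟨?_, ?_⟩⟩
  · have hN' : (2:ℝ) ≤ N := by exact_mod_cast hN
    have hY' : (2:ℝ) ≤ Y := by exact_mod_cast hN.trans hY
    have hlN : 0 < Real.log N := Real.log_pos (by linarith)
    have hlY : 0 < Real.log Y := Real.log_pos (by linarith)
    have h1 := sum_rgh_le (N := N) (Y := Y) 0 (c := fun p => 1 / (p:ℝ) + 2 * (1 / (p:ℝ) ^ 2)) (fun p hp _ => by
      have := geo_p hp.two_le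
      have e : ∀ j : ℕ, ((p:ℝ) ^ (-(1 + 0) : ℝ)) ^ j = 1 / (p:ℝ) ^ j := by
        intro j
        rw [add_zero, Real.rpow_neg_one, inv_pow, one_div]
      simp only [e]
      exact this)
    have h2 : ∑ r ∈ rgh N 1 Y, 1 / (r:ℝ) = ∑ r ∈ rgh N 1 Y, (r:ℝ) ^ (-(1 + 0) : ℝ) := by
      refine sum_congr rfl fun r _ => ?_
      rw [add_zero, Real.rpow_neg_one, one_div]
    rw [h2]
    refine h1.trans ?_
    have h3 : ∑ p ∈ (Nat.primesBelow (Y + 1)).filter (fun p => N ≤ p), (1 / (p:ℝ) + 2 * (1 / (p:ℝ) ^ 2)) ≤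
        Real.log (Real.log Y / Real.log N) + (C1 + 2 * S) := by
      rw [sum_add_distrib, ← mul_sum]
      have e1 := H1 N Y hN hY
      have e2 : ∑ p ∈ (Nat.primesBelow (Y + 1)).filter (fun p => N ≤ p), 1 / (p:ℝ) ^ 2 ≤ S :=
        hS.sum_le_tsum _ fun _ _ => by positivity
      linarith
    refine (Real.exp_le_exp.mpr h3).trans ?_
    rw [Real.exp_add, Real.exp_log (by positivity)]
    have h4 : 0 ≤ 2 * C2 * Real.exp (2 * C2) * (Real.log Y / Real.log N) := by positivity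
    calc Real.log Y / Real.log N * Real.exp (C1 + 2 * S) ≤
        Real.log Y / Real.log N * Real.exp (C1 + 2 * S) + 2 * C2 * Real.exp (2 * C2) * (Real.log Y / Real.log N) := by
          linarith
      _ = _ := by ring
  · intro δ hδ _ hx
    have h1 := sum_rgh_le (N := N) (Y := Y) δ (c := fun p => 2 * (p:ℝ) ^ (-(1 + δ))) (fun p hp _ => by
      have hp2 : (2:ℝ) ≤ p := by exact_mod_cast hp.two_le
      refine geo_half (by positivity) ?_
      calc (p:ℝ) ^ (-(1 + δ)) ≤ (p:ℝ) ^ (-1:ℝ) := Real.rpow_le_rpow_of_exponent_le (by linarith) (by linarith)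
        _ = 1 / p := by rw [Real.rpow_neg_one, one_div]
        _ ≤ 1 / 2 := by rw [div_le_div_iff₀ (by linarith) (by norm_num)]; linarith)
    rw [← mul_sum] at h1
    have h2 := H2 N Y hN hY δ hδ hx
    rw [rgh_split (by omega)] at h1
    have h3 : ((1:ℕ):ℝ) ^ (-(1 + δ)) = 1 := by rw [Nat.cast_one, Real.one_rpow]
    rw [h3] at h1
    set X := ∑ p ∈ (Nat.primesBelow (Y + 1)).filter (fun p => N ≤ p), (p:ℝ) ^ (-(1 + δ)) with hX
    set E := Real.exp (-(δ * Real.log N)) with hE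
    have hX0 : 0 ≤ X := sum_nonneg fun _ _ => by positivity
    have hE0 : 0 < E := Real.exp_pos _
    have hE1 : E ≤ 1 := by rw [hE]; apply Real.exp_le_one_iff.mpr; linarith
    have h4 : Real.exp (2 * X) - 1 ≤ 2 * X * Real.exp (2 * X) := by
      have h5 := Real.add_one_le_exp (-(2 * X))
      have h6 : Real.exp (-(2 * X)) * Real.exp (2 * X) = 1 := by rw [← Real.exp_add]; simp
      have h7 := Real.exp_pos (2 * X)
      nlinarith
    have h5 : Real.exp (2 * X) ≤ Real.exp (2 * C2) := by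
      apply Real.exp_le_exp.mpr
      nlinarith
    have h6 : 2 * X * Real.exp (2 * X) ≤ 2 * (C2 * E) * Real.exp (2 * C2) := by
      refine mul_le_mul (by linarith) h5 (Real.exp_pos _).le (by positivity)
    have h7 : 0 ≤ Real.exp (C1 + 2 * S) * E := by positivity
    calc ∑ r ∈ rgh N 2 Y, (r:ℝ) ^ (-(1 + δ)) ≤ 2 * (C2 * E) * Real.exp (2 * C2) := by linarith
      _ ≤ _ := by rw [add_mul]; nlinarith

end Pool.Agent.Q175.KZ
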